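import Mathlib
import Pool.Agent.R437.Lucas

set_option autoImplicit false

/-!
# When the lcm-type binomial coefficient of a Lucas sequence equals the `U`-binomial coefficient

For a strong divisibility sequence `a` with positive terms, `a_n = ∏_{d ∣ n} c_d` and the lcm of
`a` over a finite set `S` is the product of the `c_d` over all `d` dividing some element of `S`.
Hence `∏_W a · lcm_I a` and `∏_I a · lcm_W a` (`W = {n-k+1..n}`, `I = {1..k}`) differ by a product
of powers of the `c_d`, `d ≤ k`, with exponent `⌊n/d⌋ - ⌊(n-k)/d⌋ - ⌊k/d⌋`. For a Lucas sequence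
`c_d = |∏ (α - ζ β)|` over the primitive `d`-th roots of unity `ζ`.
-/

open Finset

namespace Pool.Agent.Results.MP_763eff_nt.EqualityCriterion

/-- The Lucas sequence `U_0 = 0`, `U_1 = 1`, `U_{n+2} = P U_{n+1} - Q U_n`. -/
def U (P Q : ℤ) : ℕ → ℤ
  | 0 => 0
  | 1 => 1
  | (n + 2) => P * U P Q (n + 1) - Q * U P Q n

/-- The `U`-binomial coefficient `(U_n U_{n-1} ⋯ U_{n-k+1}) / (U_1 U_2 ⋯ U_k)` (for `k ≤ n`, the
set `Ioc (n - k) n` is `{n-k+1, …, n}`). -/
def binomU (P Q : ℤ) (n k : ℕ) : ℚ :=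
  (∏ i ∈ Ioc (n - k) n, (U P Q i : ℚ)) / ∏ i ∈ Icc 1 k, (U P Q i : ℚ)

/-- The lcm-analogue `lcm(U_n, …, U_{n-k+1}) / lcm(U_1, …, U_k)`, with positive lcm. -/
def lcmU (P Q : ℤ) (n k : ℕ) : ℚ :=
  ((Ioc (n - k) n).lcm fun i => (U P Q i).natAbs : ℕ) / ((Icc 1 k).lcm fun i => (U P Q i).natAbs : ℕ)

/-- The homogeneous cyclotomic number `Φ_d(α, β) = ∏ (α - ζ β)`, over the primitive `d`-th roots of
unity `ζ`. -/
noncomputable def cyc (α β : ℂ) (d : ℕ) : ℂ := ∏ ζ ∈ primitiveRoots d ℂ, (α - ζ * β)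

theorem U_eq (P Q : ℤ) (n : ℕ) : U P Q n = Pool.Agent.R437.Lucas.U P Q n := by
  induction n using Nat.twoStepInduction with
  | zero => rfl
  | one => rfl
  | more n ih1 ih2 => rw [U, Pool.Agent.R437.Lucas.U_succ, ih1, ih2]

theorem criterion {P Q : ℤ} (hg : IsCoprime P Q) (hne : ∀ n, 1 ≤ n → U P Q n ≠ 0) {n k : ℕ}
    (hk : 1 ≤ k) (hkn : k ≤ n) :
    lcmU P Q n k = binomU P Q n k ↔ 0 < binomU P Q n k ∧
      ∀ d, 2 ≤ d → d ≤ k →
        Pool.Agent.R437.SDiv.prim (fun n => (U P Q n).natAbs) d = 1 ∨ k % d ≤ n % d := by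
  have hfun : (fun n => (U P Q n).natAbs) =
      fun n => (Pool.Agent.R437.Lucas.U P Q n).natAbs := by
    funext m; rw [U_eq]
  have hsd : Pool.Agent.R437.SDiv.SD (fun n => (U P Q n).natAbs) := by
    rw [hfun]
    exact Pool.Agent.R437.Lucas.sd hg fun m hm => by rw [← U_eq]; exact hne m hm
  have hmain := Pool.Agent.R437.SDiv.main hsd hk hkn
  set A : ℕ := ∏ m ∈ Ioc (n - k) n, (U P Q m).natAbs with hA
  set B : ℕ := ∏ m ∈ Icc 1 k, (U P Q m).natAbs with hB
  set L : ℕ := (Ioc (n - k) n).lcm fun i => (U P Q i).natAbs with hL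
  set M : ℕ := (Icc 1 k).lcm fun i => (U P Q i).natAbs with hM
  have hB0 : B ≠ 0 := by
    rw [hB, Finset.prod_ne_zero_iff]
    intro i hi
    exact Int.natAbs_ne_zero.2 (hne i (mem_Icc.1 hi).1)
  have hM0 : M ≠ 0 := Pool.Agent.R437.SDiv.lcm_ne hsd fun s hs => (mem_Icc.1 hs).1
  have hL0 : L ≠ 0 := Pool.Agent.R437.SDiv.lcm_ne hsd fun s hs => by
    have := mem_Ioc.1 hs; omega
  have habs : |binomU P Q n k| = (A : ℚ) / B := by
    rw [binomU, abs_div, Finset.abs_prod, Finset.abs_prod, hA, hB]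
    push_cast
    simp only [Nat.cast_natAbs, Int.cast_abs]
  have hlcm : lcmU P Q n k = (L : ℚ) / M := rfl
  have hpos : 0 < lcmU P Q n k := by
    rw [hlcm]
    have h1 : (0 : ℚ) < L := by exact_mod_cast Nat.pos_of_ne_zero hL0
    have h2 : (0 : ℚ) < M := by exact_mod_cast Nat.pos_of_ne_zero hM0
    positivity
  have hB0' : (B : ℚ) ≠ 0 := by exact_mod_cast hB0
  have hM0' : (M : ℚ) ≠ 0 := by exact_mod_cast hM0
  rw [← hmain]
  constructor
  · intro he
    have h1 : 0 < binomU P Q n k := he ▸ hpos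
    refine ⟨h1, ?_⟩
    have h2 : (L : ℚ) / M = A / B := by
      rw [← hlcm, ← habs, he, abs_of_pos h1]
    rw [div_eq_div_iff hM0' hB0'] at h2
    have h3 : L * B = A * M := by exact_mod_cast h2
    change A * M = B * L
    rw [← h3, mul_comm]
  · rintro ⟨h1, h2⟩
    change A * M = B * L at h2
    have h3 : (L : ℚ) / M = A / B := by
      rw [div_eq_div_iff hM0' hB0']
      have h4 : L * B = A * M := by rw [h2, mul_comm]
      exact_mod_cast h4
    rw [hlcm, h3, ← habs, abs_of_pos h1]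

/-- **Answer to Q1.** Let `U = U(P,Q)` be a Lucas sequence with `P Q ≠ 0`, `Δ = P² - 4Q ≠ 0`,
`gcd(P,Q) = 1`, and let the roots `α, β` of `x² - P x + Q` be such that `α/β` is not a root of
unity. For `1 ≤ k ≤ n` the lcm-analogue equals the `U`-binomial coefficient if and only if the
latter is positive and for every `2 ≤ d ≤ k` one has `|Φ_d(α,β)| = 1` or `k mod d ≤ n mod d`.
If `Δ > 0` then `|Φ_d(α,β)| = 1` never holds for `d ≥ 3`, and holds for `d = 2` only if
`|P| = 1`; so the condition reads: `k mod d ≤ n mod d` for all `3 ≤ d ≤ k`, and also for `d = 2`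
if `k ≥ 2` and `|P| ≠ 1`. -/
theorem result (P Q : ℤ) (hPQ : P * Q ≠ 0) (hD : P ^ 2 - 4 * Q ≠ 0) (hg : IsCoprime P Q)
    (α β : ℂ) (hsum : α + β = P) (hprod : α * β = Q) (hroot : ∀ m : ℕ, 1 ≤ m → (α / β) ^ m ≠ 1) :
    (∀ n k : ℕ, 1 ≤ k → k ≤ n →
      (lcmU P Q n k = binomU P Q n k ↔
        0 < binomU P Q n k ∧ ∀ d, 2 ≤ d → d ≤ k → ‖cyc α β d‖ = 1 ∨ k % d ≤ n % d)) ∧
    (0 < P ^ 2 - 4 * Q → ∀ n k : ℕ, 1 ≤ k → k ≤ n →
      (lcmU P Q n k = binomU P Q n k ↔
        0 < binomU P Q n k ∧ (∀ d, 3 ≤ d → d ≤ k → k % d ≤ n % d) ∧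
          (2 ≤ k → |P| = 1 ∨ k % 2 ≤ n % 2))) := by
  have hQ : Q ≠ 0 := right_ne_zero_of_mul hPQ
  have hne : ∀ n, 1 ≤ n → Pool.Agent.R437.Lucas.U P Q n ≠ 0 :=
    Pool.Agent.R437.Lucas.ne_zero_of hsum hprod hQ hroot
  have hne' : ∀ n, 1 ≤ n → U P Q n ≠ 0 := fun n hn => by rw [U_eq]; exact hne n hn
  have hαβ : α ≠ β := by
    rintro rfl
    apply hD
    have : (P : ℂ) ^ 2 - 4 * Q = 0 := by rw [← hsum, ← hprod]; ring
    exact_mod_cast this
  have hprim : ∀ d, 2 ≤ d →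
      (Pool.Agent.R437.SDiv.prim (fun n => (U P Q n).natAbs) d = 1 ↔ ‖cyc α β d‖ = 1) := by
    intro d hd
    have h1 := Pool.Agent.R437.Lucas.prim_eq_cyc hg hne hsum hprod hQ hαβ d hd
    have h2 : (fun n => (U P Q n).natAbs) =
      fun n => (Pool.Agent.R437.Lucas.U P Q n).natAbs := by
      funext m; rw [U_eq]
    rw [h2]
    change _ = ‖cyc α β d‖ at h1
    rw [← h1]
    norm_cast
  refine ⟨fun n k hk hkn => ?_, fun hpos n k hk hkn => ?_⟩
  · rw [criterion hg hne' hk hkn]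
    refine and_congr_right fun _ => forall_congr' fun d => forall_congr' fun hd =>
      forall_congr' fun _ => or_congr_left (hprim d hd)
  · rw [criterion hg hne' hk hkn]
    refine and_congr_right fun _ => ?_
    have h2' : Pool.Agent.R437.SDiv.prim (fun n => (U P Q n).natAbs) 2 = 1 ↔ |P| = 1 := by
      have h2 : (fun n => (U P Q n).natAbs) =
        fun n => (Pool.Agent.R437.Lucas.U P Q n).natAbs := by
        funext m; rw [U_eq]
      rw [h2, Pool.Agent.R437.Lucas.prim_two, Int.abs_eq_natAbs]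
      norm_cast
    constructor
    · intro h
      refine ⟨fun d hd hdk => ?_, fun hk2 => ?_⟩
      · rcases h d (by omega) hdk with h3 | h3
        · rw [hprim d (by omega)] at h3
          have h4 := Pool.Agent.R437.Lucas.cyc_gt hPQ hpos hsum hprod hd
          change 1 < ‖cyc α β d‖ at h4
          rw [h3] at h4
          exact absurd h4 (lt_irrefl _)
        · exact h3
      · rcases h 2 le_rfl hk2 with h3 | h3
        · exact Or.inl (h2'.1 h3)
        · exact Or.inr h3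
    · rintro ⟨h3, h4⟩ d hd hdk
      rcases Nat.lt_or_ge 2 d with h5 | h5
      · exact Or.inr (h3 d h5 hdk)
      · obtain rfl : d = 2 := by omega
        rcases h4 hdk with h6 | h6
        · exact Or.inl (h2'.2 h6)
        · exact Or.inr h6

end Pool.Agent.Results.MP_763eff_nt.EqualityCriterion
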